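import Pool.Agent.H32.Sandp

set_option autoImplicit false

namespace Pool.Agent.Results.MP_f0ff61_co.Cospectral

open Pool.Agent.H32.Sandp

/-- Two generator multisets on `F_2^3` with multiplicity gcd 1 and the same eigenvalues (even
with multiplicities) whose sandpile groups are not isomorphic. -/
theorem result : ∃ (r : ℕ) (M M' : List (Vec r)), 1 ≤ r ∧
    (∀ v ∈ M, v ≠ 0) ∧ (∀ v ∈ M', v ≠ 0) ∧
    Submodule.span (ZMod 2) {v | v ∈ M} = ⊤ ∧ Submodule.span (ZMod 2) {v | v ∈ M'} = ⊤ ∧
    mgcd M = 1 ∧ mgcd M' = 1 ∧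
    Set.range (eig M) = Set.range (eig M') ∧
    Finset.univ.val.map (eig M) = Finset.univ.val.map (eig M') ∧
    IsEmpty (K M ≃+ K M') := by
  have hm : Finset.univ.val.map (eig M1) = Finset.univ.val.map (eig M2) := by decide +kernel
  refine ⟨3, M1, M2, by norm_num, by decide +kernel, by decide +kernel,
    span_of _ (by decide +kernel), span_of _ (by decide +kernel), by decide +kernel,
    by decide +kernel, ?_, hm, not_iso⟩
  ext x
  have := congrArg (fun s => x ∈ s) hm
  simpa [eq_comm] using this

end Pool.Agent.Results.MP_f0ff61_co.Cospectral
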